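import Pool.Agent.H44.DU.Targets2

/-!
# The internal sides of the levels satisfy the hypotheses of the translation lemma
-/

set_option autoImplicit false

namespace Pool.Agent.H77.DU

open Pool.Agent.H44.DU

lemma intL_gl {n : ℕ} (S : Surf n) (β : Fin n → ℂ) (s : Side n) :
    S.IntL β (S.gl s) ↔ S.IntL β s := by
  unfold Surf.IntL
  rw [S.gl_gl, S.a_gl]
  constructor
  · rintro ⟨h1, h2, h3⟩
    exact ⟨h2, h1, inv_eq_one.mp h3⟩
  · rintro ⟨h1, h2, h3⟩
    exact ⟨h2, h1, inv_eq_one.mpr h3⟩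

theorem pf_CPL : T_CPL := by
  intro n S β hc hne
  refine ⟨intL_gl S β, ?_⟩
  intro i
  by_contra hcon
  push Not at hcon
  have key : ∀ j : Fin n, Relation.ReflTransGen
      (fun i j => ∃ k, (S.gl (i, k)).1 = j) i j →
      Relation.ReflTransGen (fun i j => ∃ s, S.IntL β s ∧ s.1 = i ∧ (S.gl s).1 = j) i j := by
    intro j hj
    induction hj with
    | refl => exact Relation.ReflTransGen.refl
    | tail _ hbc ih =>
      obtain ⟨k, hk⟩ := hbc
      refine ih.tail ⟨(_, k), ?_, rfl, hk⟩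
      by_contra hI
      exact hcon _ hI ih
  obtain ⟨s, hs⟩ := hne
  have h1 := key s.1 (hc i s.1)
  have h2 : S.IntL β s := by
    by_contra hI
    exact hcon s hI h1
  exact hs h2.2.2

end Pool.Agent.H77.DU
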