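import Pool.Agent.H44.DU.Targets

/-!
# Words which do not hit a vertex have one continuation
-/

set_option autoImplicit false

namespace Pool.Agent.H77.DU

open Pool.Agent.H44.DU Pool.Agent.H44.DU.Surf

theorem pf_P1 (h : T_LH) : T_P1 := by
  intro n S U t m hAbs hm hNB w hw
  obtain ⟨hlen, hU, x0, hx0⟩ := hw
  obtain ⟨w0, l, hwl⟩ : ∃ w0 l, w = w0 ++ [l] := by
    have hne : w ≠ [] := by
      intro h0
      rw [h0] at hlen
      simp at hlen
      omega
    exact ⟨w.dropLast, w.getLast hne, (List.dropLast_append_getLast hne).symm⟩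
  obtain ⟨e, w1, hwe⟩ : ∃ e w1, w = e :: w1 := by
    cases w with
    | nil => simp at hwl
    | cons e w1 => exact ⟨e, w1, rfl⟩
  have hne : w ≠ [] := by rw [hwe]; simp
  have hrun : ∀ x, S.Run t w x ↔ S.Chn w ∧ S.lo t w < x ∧ x < S.hi t w := h n S t w hne
  have hch : S.Chn w := ((hrun x0).1 hx0).1
  have hlI : ∀ x, S.Run t w x → S.InJ t l (S.g t w0 x) := by
    intro x hx
    rw [hwl, run_append, run_single] at hx
    exact hx.2.2
  have hI : ∀ x, S.Run t w x → S.InI t (S.gl l) (S.g t w x) := by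
    intro x hx
    rw [hwl, g_append, g_single, inI_gl_iff]
    exact hlI x hx
  have hUl : U (S.gl l).1 := by
    refine hAbs l _ (hlI x0 hx0) (hU l ?_)
    rw [hwl]; simp
  set c := xi t (S.O (S.gl l)) with hc
  have hnb : ∀ x, S.lo t w ≤ x → x ≤ S.hi t w → S.g t w x ≠ c := by
    intro x h1 h2
    have := hNB w0 l x (by rw [← hwl]; exact hlen) (by rw [← hwl]; exact hU)
      ⟨x0, by rw [← hwl]; exact hx0⟩ (by rw [← hwl]; exact h1) (by rw [← hwl]; exact h2)
    rw [← hwl] at this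
    exact this
  have hA := S.A_pos w
  have hroot : S.g t w ((c - xi t (S.B w)) / S.A w) = c := by
    simp only [g]
    field_simp
    ring
  have key : (∀ x, S.Run t w x → c < S.g t w x) ∨ (∀ x, S.Run t w x → S.g t w x < c) := by
    by_contra hcon
    push Not at hcon
    obtain ⟨⟨x1, h1, h1'⟩, ⟨x2, h2, h2'⟩⟩ := hcon
    have b1 := ((hrun x1).1 h1).2
    have b2 := ((hrun x2).1 h2).2
    set z := (c - xi t (S.B w)) / S.A w with hz
    rw [← hroot, g_le_iff] at h1' h2'
    exact hnb z (b1.1.le.trans h1') (h2'.trans b2.2.le) hroot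
  obtain ⟨r, hr1, hrJ⟩ : ∃ r : Side n, r.1 = (S.gl l).1 ∧
      ∀ x, S.Run t w x → S.InJ t r (S.g t w x) := by
    rcases key with hk | hk
    · exact ⟨nx (S.gl l), rfl, fun x hx => S.exit_right (hI x hx) (hk x hx)⟩
    · exact ⟨nx (nx (S.gl l)), rfl, fun x hx => S.exit_left (hI x hx) (hk x hx)⟩
  have hrun' : ∀ x, S.Run t w x → S.Run t (w ++ [r]) x := by
    intro x hx
    have h1 := hx
    have h2 := hrJ x hx
    rw [hwl] at h1 h2 ⊢
    rw [run_snoc]
    exact ⟨h1, hr1.symm, h2⟩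
  refine ⟨r, ⟨?_, ?_, ?_⟩, hrun', ?_⟩
  · rw [hwe] at hlen ⊢
    simpa using hlen
  · intro r' hr'
    rw [hwe] at hr'
    simp only [List.tail_cons, List.mem_append, List.mem_singleton] at hr'
    rcases hr' with hr' | hr'
    · exact hU r' (by rw [hwe]; simp [hr'])
    · rw [hr', hr1]; exact hUl
  · refine ⟨S.mv t e x0, ?_⟩
    have h1 := hrun' x0 hx0
    rw [hwe] at h1 ⊢
    rw [List.cons_append] at h1
    exact h1.2.2
  · intro r' x hx
    have h1 : S.Run t w x := ((S.run_append t w [r'] x).1 hx).1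
    have h2 := hrJ x h1
    rw [hwl] at hx h2
    rw [run_snoc] at hx
    exact S.exit_unique (hx.2.1.symm.trans hr1.symm) hx.2.2 h2

end Pool.Agent.H77.DU
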